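import Pool.Agent.Q39.OP.Main

/-!
MP_c865e8_ag, Q1, positive answer: every ordered partition of every `t ≥ 1` is realised by a reduced
plane curve, even by a line arrangement.

The definitions are in `Pool/Agent/Q39/OP/Defs.lean` (`jacSyz`, `HasResolution`, `OfClass`).
-/

set_option autoImplicit false

namespace Pool.Agent.Results.MP_c865e8_ag.AllOrderedPartitions

open MvPolynomial Pool.Agent.Q39.OP

/-- For every `t ≥ 1` and every ordered partition `(ε_1, …, ε_s)` of `t` into positive integers
there are linear forms whose product `f` defines a reduced plane curve (a line arrangement) of class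
`t T_π`, `π = (ε_1, …, ε_s)`: it is not free, of type `t`, and its ordered partition is `π`. -/
theorem result (t : ℕ) (ht : 1 ≤ t) (s : ℕ) (ε : Fin s → ℕ) (hε : ∀ j, 1 ≤ ε j)
    (hsum : ∑ j, ε j = t) :
    ∃ (N : ℕ) (A : Fin N → Fin 3 → ℂ), OfClass (∏ i, ∑ j, C (A i j) * X j) t ε := by
  have hs : 1 ≤ s := by
    rcases Nat.eq_zero_or_pos s with rfl | h
    · simp at hsum
      omega
    · exact h
  rw [← hsum]
  exact main s ε hs hε

end Pool.Agent.Results.MP_c865e8_ag.AllOrderedPartitions
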